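import Pool.Agent.H29.LG.Targets

/-!
# Row KLV: the level of a number
-/

set_option autoImplicit false

namespace Pool.Agent.H46.LG

open NumberField Height Finset Polynomial Pool.Agent.H24.RD Pool.Agent.H23.RDD Pool.Agent.H29.RQ
  Pool.Agent.H29.SX Pool.Agent.H29.LG

open scoped Pointwise

section

variable {F Ω : Type} [Field F] [Field Ω] [Algebra F Ω]

theorem fix_adjoin (S : Set Ω) (τ : Ω ≃ₐ[F] Ω) (h : ∀ z ∈ S, τ z = z) :
    ∀ z ∈ IntermediateField.adjoin F S, τ z = z := by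
  intro z hz
  induction hz using IntermediateField.adjoin_induction with
  | mem x hx => exact h x hx
  | algebraMap x => exact τ.commutes x
  | add x y _ _ hx hy => rw [map_add, hx, hy]
  | inv x _ hx => rw [map_inv₀, hx]
  | mul x y _ _ hx hy => rw [map_mul, hx, hy]

theorem fixE {r : ℕ} (γ : Fin r → F) (N : ℕ) (T : Fin r → Ω)
    (hT : ∀ i, T i ^ N = algebraMap F Ω (γ i)) (hT0 : ∀ i, T i ≠ 0) (τ : Ω ≃ₐ[F] Ω)
    (h1 : ∀ z : Ω, z ^ N = 1 → τ z = z) (h2 : ∀ i, τ (T i) = T i) :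
    ∀ z ∈ Lv F Ω γ N N, τ z = z := by
  unfold Lv
  apply fix_adjoin
  rintro z (hz | ⟨i, hz⟩)
  · exact h1 z hz
  · have h3 : (z / T i) ^ N = 1 := by
      rw [div_pow, hz, hT i, div_self]
      rw [← hT i]
      exact pow_ne_zero _ (hT0 i)
    have h4 := h1 _ h3
    have h5 : z = z / T i * T i := (div_mul_cancel₀ z (hT0 i)).symm
    rw [h5, map_mul, h4, h2 i]

theorem root_exp {N : ℕ} (hN : 0 < N) {ζ t : Ω} (hζ : IsPrimitiveRoot ζ N) (ht : t ≠ 0)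
    (σ : Ω ≃ₐ[F] Ω) {a : F} (h : t ^ N = algebraMap F Ω a) : ∃ c : ℕ, σ t = ζ ^ c * t := by
  have : NeZero N := ⟨hN.ne'⟩
  have h1 : (σ t / t) ^ N = 1 := by
    rw [div_pow, ← map_pow, h, AlgEquiv.commutes, div_self]
    rw [← h]
    exact pow_ne_zero _ ht
  obtain ⟨c, -, hc⟩ := hζ.eq_pow_of_pow_eq_one h1
  refine ⟨c, ?_⟩
  rw [hc, div_mul_cancel₀ _ ht]

theorem pow_act {σ : Ω ≃ₐ[F] Ω} {ζ t : Ω} (hζ : σ ζ = ζ) {c : ℕ} (h : σ t = ζ ^ c * t) (k : ℕ) :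
    (σ ^ k) t = ζ ^ (k * c) * t := by
  induction k with
  | zero => simp
  | succ k ih =>
    rw [pow_succ, AlgEquiv.mul_apply, h, map_mul, ih, map_pow]
    have h2 : (σ ^ k) ζ = ζ := by
      clear ih
      induction k with
      | zero => rfl
      | succ k ih => rw [pow_succ, AlgEquiv.mul_apply, hζ, ih]
    rw [h2]
    ring

end

theorem bezout (a N : ℕ) (hN : 0 < N) : ∃ u : ℕ, (a * u) ≡ Nat.gcd a N [MOD N] := by
  refine ⟨(Nat.gcdA a N % N).toNat, ?_⟩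
  rw [← Int.natCast_modEq_iff]
  push_cast
  have h0 : (N : ℤ) ≠ 0 := by exact_mod_cast hN.ne'
  rw [Int.toNat_of_nonneg (Int.emod_nonneg _ h0)]
  have h1 := Nat.gcd_eq_gcd_ab a N
  have h2 : ((Nat.gcd a N : ℕ) : ℤ) = (a : ℤ) * Nat.gcdA a N + N * Nat.gcdB a N := h1
  rw [h2]
  have h3 : (Nat.gcdA a N % N : ℤ) ≡ Nat.gcdA a N [ZMOD N] := Int.mod_modEq _ _
  have h4 : (a : ℤ) * (Nat.gcdA a N % N) ≡ a * Nat.gcdA a N [ZMOD N] := h3.mul_left _
  refine h4.trans ?_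
  have h5 : (N : ℤ) * Nat.gcdB a N ≡ 0 [ZMOD N] := by
    rw [Int.modEq_zero_iff_dvd]
    exact dvd_mul_right _ _
  have := (Int.ModEq.refl ((a : ℤ) * Nat.gcdA a N)).add h5
  rw [add_zero] at this
  exact this.symm

theorem pf_KLV (h1 : T_LVB) (h2 : T_KGA) : T_KLV := by
  intro F Ω _ _ _ _ _ _ _ r γ hγ
  obtain ⟨i₀, hi₀, hK⟩ := h2 F Ω r γ hγ
  refine ⟨i₀, hi₀, ?_⟩
  rintro N d D β hN ⟨s, hs, hsβ⟩ ⟨s', hs', hsβ'⟩
  obtain ⟨-, -, ⟨ζ₀, hζ₀⟩, -, -, hmono⟩ := h1 F Ω r γ hγ.1 N N hN hN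
  have hmono' : ∀ K K₁ : ℕ, 0 < K → K ∣ K₁ → K₁ ∣ N → Lv F Ω γ N K ≤ Lv F Ω γ N K₁ := by
    intro K K₁ hK0 h3 h4
    exact (h1 F Ω r γ hγ.1 N K hN hK0).2.2.2.2.2 N K₁ dvd_rfl h3 h4 hN
  set ζ : Ω := (ζ₀ : Ω) with hζdef
  have hζ : IsPrimitiveRoot ζ N := hζ₀.map_of_injective (f := (Lv F Ω γ N N).val)
    (Lv F Ω γ N N).val.injective
  have hT : ∀ i, ∃ t : Ω, t ^ N = algebraMap F Ω (γ i) := fun i =>
    IsAlgClosed.exists_pow_nat_eq _ hN
  choose T hT using hT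
  have hT0 : ∀ i, T i ≠ 0 := by
    intro i h
    have h3 := hT i
    rw [h, zero_pow hN.ne'] at h3
    exact hγ.1 i ((map_eq_zero (algebraMap F Ω)).mp h3.symm)
  -- the groups
  set Kb := Lv F Ω γ N 1 with hKb
  set E := Lv F Ω γ N N with hE
  have hroot : ∀ z : Ω, z ^ N = 1 → z ∈ Kb := by
    intro z hz
    rw [hKb]
    unfold Lv
    exact IntermediateField.subset_adjoin F _ (Or.inl hz)
  have hζKb : ζ ∈ Kb := hroot ζ hζ.pow_eq_one
  set H : Subgroup (Ω ≃ₐ[F] Ω) := Kb.fixingSubgroup with hH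
  have memH : ∀ τ : Ω ≃ₐ[F] Ω, τ ∈ H ↔ ∀ z ∈ Kb, τ z = z := fun τ =>
    IntermediateField.mem_fixingSubgroup_iff Kb τ
  have memE : ∀ τ : Ω ≃ₐ[F] Ω, τ ∈ E.fixingSubgroup ↔ ∀ z ∈ E, τ z = z := fun τ =>
    IntermediateField.mem_fixingSubgroup_iff E τ
  set A : Subgroup H := E.fixingSubgroup.subgroupOf H with hA
  have memA : ∀ τ : H, (∀ i, (τ : Ω ≃ₐ[F] Ω) (T i) = T i) → τ ∈ A := by
    intro τ hτ
    rw [hA, Subgroup.mem_subgroupOf, memE]
    exact fixE γ N T hT hT0 τ (fun z hz => (memH _).mp τ.2 z (hroot z hz)) hτ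
  -- commutators
  have hcomm : ∀ g b : H, (b * g)⁻¹ * (g * b) ∈ A := by
    intro g b
    apply memA
    intro i
    obtain ⟨c, hc⟩ := root_exp hN hζ (hT0 i) (g : Ω ≃ₐ[F] Ω) (hT i)
    obtain ⟨e, he⟩ := root_exp hN hζ (hT0 i) (b : Ω ≃ₐ[F] Ω) (hT i)
    have hg := (memH _).mp g.2 ζ hζKb
    have hb := (memH _).mp b.2 ζ hζKb
    have e1 : ((g * b : H) : Ω ≃ₐ[F] Ω) (T i) = ζ ^ (c + e) * T i := by
      rw [Subgroup.coe_mul, AlgEquiv.mul_apply, he, map_mul, map_pow, hg, hc]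
      ring
    have e2 : ((b * g : H) : Ω ≃ₐ[F] Ω) (T i) = ζ ^ (c + e) * T i := by
      rw [Subgroup.coe_mul, AlgEquiv.mul_apply, hc, map_mul, map_pow, hb, he]
      ring
    rw [Subgroup.coe_mul, AlgEquiv.mul_apply, e1, ← e2, Subgroup.coe_inv]
    exact AlgEquiv.symm_apply_apply _ _
  have hAn : A.Normal := by
    refine ⟨fun a ha g => ?_⟩
    -- g a g⁻¹ fixes E because it fixes the T i
    apply memA
    intro i
    obtain ⟨c, hc⟩ := root_exp hN hζ (hT0 i) ((g⁻¹ : H) : Ω ≃ₐ[F] Ω) (hT i)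
    have ha' : ∀ z ∈ E, (a : Ω ≃ₐ[F] Ω) z = z := by
      rw [hA, Subgroup.mem_subgroupOf, memE] at ha
      exact ha
    have hTE : T i ∈ E := by
      rw [hE]
      unfold Lv
      exact IntermediateField.subset_adjoin F _ (Or.inr ⟨i, hT i⟩)
    have hζE : ζ ∈ E := hmono' 1 N one_pos (one_dvd _) dvd_rfl hζKb
    have hg := (memH _).mp g.2 ζ hζKb
    have e1 : ((g⁻¹ : H) : Ω ≃ₐ[F] Ω) (T i) ∈ E := by
      rw [hc]
      exact E.mul_mem (pow_mem hζE c) hTE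
    rw [Subgroup.coe_mul, Subgroup.coe_mul, AlgEquiv.mul_apply, AlgEquiv.mul_apply, ha' _ e1]
    rw [Subgroup.coe_inv]
    exact AlgEquiv.apply_symm_apply _ _
  set St : Subgroup H := MulAction.stabilizer H β with hSt
  set Bs : Subgroup H := A ⊔ St with hBs
  have hBn : Bs.Normal := by
    refine ⟨fun b hb g => ?_⟩
    have h3 : g * b * g⁻¹ = b * (g * ((b * g)⁻¹ * (g * b)) * g⁻¹) := by group
    rw [h3]
    exact Bs.mul_mem hb ((le_sup_left : A ≤ Bs) (hAn.conj_mem _ (hcomm g b) g))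
  -- the index
  have horb : MulAction.orbit H β ⊆ (s' : Set Ω) := by
    rintro _ ⟨σ, rfl⟩
    exact hsβ' σ ((memH _).mp σ.2)
  have hfin : (MulAction.orbit H β).Finite := s'.finite_toSet.subset horb
  have hidx : St.index = (MulAction.orbit H β).ncard := MulAction.index_stabilizer H β
  have hncard : (MulAction.orbit H β).ncard ≤ D := by
    refine (Set.ncard_le_ncard horb s'.finite_toSet).trans ?_
    rw [Set.ncard_coe_finset]
    exact hs'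
  have hpos : 0 < (MulAction.orbit H β).ncard :=
    (Set.ncard_pos hfin).mpr ⟨β, MulAction.mem_orbit_self β⟩
  have hdvd : Bs.index ∣ St.index := Subgroup.index_dvd_of_le le_sup_right
  have hStpos : 0 < St.index := hidx ▸ hpos
  set k := Bs.index with hk
  have hkpos : 0 < k := Nat.pos_of_dvd_of_pos hdvd hStpos
  have hkD : k ≤ D := (Nat.le_of_dvd hStpos hdvd).trans (hidx ▸ hncard)
  have hpow : ∀ σ : H, σ ^ k ∈ Bs := fun σ => Bs.pow_index_mem σ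
  refine ⟨Nat.gcd (k * i₀) N, Nat.gcd_pos_of_pos_right _ hN, Nat.gcd_dvd_right _ _, ?_, s, hs, ?_⟩
  · calc Nat.gcd (k * i₀) N ≤ k * i₀ := Nat.gcd_le_left _ (Nat.mul_pos hkpos hi₀)
      _ = i₀ * k := mul_comm _ _
      _ ≤ i₀ * D := Nat.mul_le_mul_left _ hkD
  intro σ hσ
  set K := Nat.gcd (k * i₀) N with hKdef
  have hKN : K ∣ N := Nat.gcd_dvd_right _ _
  have hKpos : 0 < K := Nat.gcd_pos_of_pos_right _ hN
  have hσH : σ ∈ H := (memH σ).mpr fun z hz => hσ z (hmono' 1 K one_pos (one_dvd _) hKN hz)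
  obtain ⟨M, hM⟩ := hKN
  have hMpos : 0 < M := by
    rcases Nat.eq_zero_or_pos M with h | h
    · rw [h, mul_zero] at hM
      omega
    · exact h
  -- exponents
  have hc : ∀ i, ∃ e : ℕ, σ (T i) = ζ ^ (K * e) * T i := by
    intro i
    obtain ⟨c, hc⟩ := root_exp hN hζ (hT0 i) σ (hT i)
    have h3 : T i ^ M ∈ Lv F Ω γ N K := by
      unfold Lv
      refine IntermediateField.subset_adjoin F _ (Or.inr ⟨i, ?_⟩)
      rw [← pow_mul, mul_comm, ← hM, hT i]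
    have h4 := hσ _ h3
    rw [map_pow, hc, mul_pow, ← pow_mul] at h4
    have h5 : ζ ^ (c * M) = 1 := mul_right_cancel₀ (pow_ne_zero M (hT0 i)) (h4.trans (one_mul _).symm)
    have h6 : N ∣ c * M := hζ.dvd_of_pow_eq_one _ h5
    rw [hM] at h6
    obtain ⟨e, he⟩ := Nat.dvd_of_mul_dvd_mul_right hMpos h6
    exact ⟨e, he ▸ hc⟩
  choose e he using hc
  obtain ⟨u, hu⟩ := bezout (k * i₀) N hN
  obtain ⟨σ', hσ'1, hσ'2⟩ := hK N hN ζ T hζ hT fun i => u * e i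
  have hσ'H : σ' ∈ H := (memH σ').mpr hσ'1
  have hagree : ∀ i, (σ' ^ k) (T i) = σ (T i) := by
    intro i
    rw [pow_act (hσ'1 ζ hζKb) (hσ'2 i) k, he i]
    congr 1
    have h7 : k * (i₀ * (u * e i)) ≡ K * e i [MOD N] := by
      have := hu.mul_right (e i)
      calc k * (i₀ * (u * e i)) = k * i₀ * u * e i := by ring
        _ ≡ K * e i [MOD N] := this
    rw [pow_eq_pow_mod (k * (i₀ * (u * e i))) hζ.pow_eq_one, h7,
      ← pow_eq_pow_mod (K * e i) hζ.pow_eq_one]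
  have hmemB : (⟨σ, hσH⟩ : H) ∈ Bs := by
    have h8 : (⟨σ', hσ'H⟩ : H) ^ k ∈ Bs := hpow _
    have h9 : ((⟨σ', hσ'H⟩ : H) ^ k)⁻¹ * ⟨σ, hσH⟩ ∈ A := by
      apply memA
      intro i
      rw [Subgroup.coe_mul, AlgEquiv.mul_apply, Subgroup.coe_inv, Subgroup.coe_pow]
      change (σ' ^ k).symm (σ (T i)) = T i
      rw [← hagree i]
      exact AlgEquiv.symm_apply_apply _ _
    have h10 : (⟨σ, hσH⟩ : H) = (⟨σ', hσ'H⟩ : H) ^ k * (((⟨σ', hσ'H⟩ : H) ^ k)⁻¹ * ⟨σ, hσH⟩) := by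
      group
    rw [h10]
    exact Bs.mul_mem h8 ((le_sup_left : A ≤ Bs) h9)
  have hdec : (⟨σ, hσH⟩ : H) ∈ ((A : Set H) * (St : Set H)) := by
    rw [← Subgroup.normal_mul]
    exact hmemB
  obtain ⟨a, ha, b, hb, hab⟩ := hdec
  have hbβ : (b : Ω ≃ₐ[F] Ω) β = β := MulAction.mem_stabilizer_iff.mp hb
  have hσab : σ = (a : Ω ≃ₐ[F] Ω) * (b : Ω ≃ₐ[F] Ω) := by
    have := congrArg (Subtype.val) hab
    exact this.symm
  rw [hσab, AlgEquiv.mul_apply, hbβ]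
  apply hsβ
  have ha' : a ∈ A := ha
  rw [hA, Subgroup.mem_subgroupOf, memE] at ha'
  exact ha'

end Pool.Agent.H46.LG
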